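import Pool.Agent.Y290.RC.Seq

/-!
# No joint recurrence along `(n, 2 n, a n)`: all sequences with gaps tending to infinity

There are one compact metric space and one minimal homeomorphism `T` of it which work for all
sequences `a` of integers with gaps tending to infinity, in particular for `n ^ 2` and for all integer
polynomials of degree at least two: some minimal homeomorphism `S` has no joint returns with `T`.
The systems come from the starting library (`W681.RC`, `H317R3`).
-/

set_option autoImplicit false

namespace Pool.Agent.Results.MP_3e1352_an.AllSparseSequences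

open Filter Pool.Agent.Y290.RC Polynomial

/-- There are a (nonempty) compact metric space `X` and a minimal homeomorphism `T` of `X` such that
for every `a : ℤ → ℤ` whose gaps `a (n + 1) - a n` tend to `+∞` or to `-∞` as `n → +∞`, and for the
values `a n = p n` of every integer polynomial `p` of degree at least two (for instance `n ^ 2`),
there is a minimal homeomorphism `S` of `X` such that for some `ε > 0` and all large `n` no point at
all comes back `ε`-close to itself at the times `n` and `2 n` for `T` and `a n` for `S`; in
particular there is no point `x` with `T^(n i) x → x`, `T^(2 n i) x → x`, `S^(a (n i)) x → x` for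
some integers `n i → ∞`. -/
theorem result : ∃ (X : Type) (_ : MetricSpace X) (_ : CompactSpace X) (_ : Nonempty X)
    (T : X ≃ₜ X), IsMinimal T ∧
      (∀ a : ℤ → ℤ, (Tendsto (fun n : ℤ => a (n + 1) - a n) atTop atTop ∨
          Tendsto (fun n : ℤ => a (n + 1) - a n) atTop atBot) →
        ∃ S : X ≃ₜ X, IsMinimal S ∧ NoReturns T S a ∧ NoRecurrence T S a) ∧
      ∀ p : ℤ[X], 2 ≤ p.natDegree →
        ∃ S : X ≃ₜ X, IsMinimal S ∧ NoReturns T S (fun n => p.eval n) ∧
          NoRecurrence T S (fun n => p.eval n) := by
  obtain ⟨X, i1, i2, i3, T, hT, h⟩ := main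
  refine ⟨X, i1, i2, i3, T, hT, fun a ha => ?_, fun p hp => ?_⟩
  · obtain ⟨S, hS, hn⟩ := h a ha
    exact ⟨S, hS, hn, hn.noRecurrence⟩
  · obtain ⟨S, hS, hn⟩ := h (fun n => p.eval n) (poly_case p hp)
    exact ⟨S, hS, hn, hn.noRecurrence⟩

end Pool.Agent.Results.MP_3e1352_an.AllSparseSequences
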